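import Mathlib

set_option autoImplicit false

open Set Filter Topology

namespace Pool.Agent.H8.Ps

variable {X : Type*} [TopologicalSpace X]

theorem closed_mem {A : Set C(X, ℝ)}
    (hA : @IsClosed C(X, ℝ)
      (TopologicalSpace.induced (fun h : C(X, ℝ) => (h : X → ℝ)) Pi.topologicalSpace) A)
    (g : C(X, ℝ))
    (h : ∀ (F : Finset X) (ε : ℝ), 0 < ε → ∃ f ∈ A, ∀ x ∈ F, |f x - g x| < ε) : g ∈ A := by
  classical
  obtain ⟨K, hK, rfl⟩ := isClosed_induced_iff.mp hA
  change (g : X → ℝ) ∈ K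
  have : (g : X → ℝ) ∈ closure K := by
    rw [mem_closure_iff_nhds]
    intro t ht
    rw [nhds_pi, Filter.mem_pi] at ht
    obtain ⟨I, hI, s, hs, hsub⟩ := ht
    have h1 : ∀ x, ∃ ε > 0, ∀ y : ℝ, |y - g x| < ε → y ∈ s x := by
      intro x
      obtain ⟨ε, hε, hb⟩ := Metric.mem_nhds_iff.mp (hs x)
      refine ⟨ε, hε, fun y hy => hb ?_⟩
      rw [Metric.mem_ball, Real.dist_eq]; exact hy
    choose e he heb using h1
    have h2 : ∃ ε > 0, ∀ x ∈ hI.toFinset, ε ≤ e x := by
      induction hI.toFinset using Finset.induction_on with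
      | empty => exact ⟨1, one_pos, by simp⟩
      | insert a S ha ih =>
        obtain ⟨ε, hε, h3⟩ := ih
        refine ⟨min ε (e a), lt_min hε (he a), ?_⟩
        intro x hx
        rcases Finset.mem_insert.mp hx with rfl | hx
        · exact min_le_right _ _
        · exact le_trans (min_le_left _ _) (h3 x hx)
    obtain ⟨ε, hε, hε2⟩ := h2
    obtain ⟨f, hf, hf2⟩ := h hI.toFinset ε hε
    refine ⟨(f : X → ℝ), hsub ?_, hf⟩
    intro x hx
    have hx' : x ∈ hI.toFinset := by simpa using hx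
    exact heb x _ (lt_of_lt_of_le (hf2 x hx') (hε2 x hx'))
  rwa [hK.closure_eq] at this

theorem tendsto_ptw {ι : Type*} {l : Filter ι} {f : ι → C(X, ℝ)} {g : C(X, ℝ)}
    (h : Filter.Tendsto f l
            (@nhds C(X, ℝ)
              (TopologicalSpace.induced (fun h : C(X, ℝ) => (h : X → ℝ)) Pi.topologicalSpace) g))
    (x : X) : Filter.Tendsto (fun n => f n x) l (nhds (g x)) := by
  rw [@nhds_induced, Filter.tendsto_comap_iff] at h
  exact (tendsto_pi_nhds.mp h) x

theorem sep_fin [CompletelyRegularSpace X] (U : Set X) (hU : IsOpen U) (F : Finset X) :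
    (↑F : Set X) ⊆ U →
    ∃ f : C(X, ℝ), (∀ x ∈ F, f x = 0) ∧ ∀ x ∉ U, f x = 1 := by
  classical
  induction F using Finset.induction_on with
  | empty => intro _; exact ⟨1, by simp, by simp⟩
  | insert a S ha ih =>
    intro hF
    obtain ⟨f, hf, hf1⟩ := ih (fun x hx => hF (by simp only [Finset.coe_insert]; exact Or.inr hx))
    have haU : a ∈ U := hF (by simp)
    obtain ⟨g, hg, hg0, hg1⟩ := CompletelyRegularSpace.completely_regular a Uᶜ hU.isClosed_compl
      (by simpa using haU)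
    let g' : C(X, ℝ) := ⟨fun x => (g x : ℝ), continuous_subtype_val.comp hg⟩
    refine ⟨f * g', ?_, ?_⟩
    · intro x hx
      rcases Finset.mem_insert.mp hx with rfl | hx
      · have : g' x = 0 := by simp [g', hg0]
        simp [this]
      · simp [hf x hx]
    · intro x hx
      have h1 : g x = 1 := hg1 (by simpa using hx)
      have : g' x = 1 := by simp [g', h1]
      simp [this, hf1 x hx]

theorem main (p : Ultrafilter ℕ) (X : Type) [TopologicalSpace X] [T35Space X]
    (hseq : ∀ A : Set C(X, ℝ),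
        (∀ (f : ℕ → C(X, ℝ)) (g : C(X, ℝ)), (∀ n, f n ∈ A) →
          Filter.Tendsto f (p : Filter ℕ)
            (@nhds C(X, ℝ)
              (TopologicalSpace.induced (fun h : C(X, ℝ) => (h : X → ℝ)) Pi.topologicalSpace) g) →
          g ∈ A) →
        @IsClosed C(X, ℝ)
          (TopologicalSpace.induced (fun h : C(X, ℝ) => (h : X → ℝ)) Pi.topologicalSpace) A)
    (𝒰 : Set (Set X)) (hop : ∀ U ∈ 𝒰, IsOpen U) (huniv : (Set.univ : Set X) ∉ 𝒰)
    (hcov : ∀ F : Finset X, ∃ U ∈ 𝒰, (↑F : Set X) ⊆ U) :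
    ∃ u : ℕ → Set X, (∀ n, u n ∈ 𝒰) ∧
          ∀ x : X, ∀ᶠ n in (p : Filter ℕ), x ∈ u n := by
  classical
  -- step 1: a countable subfamily which is still an omega-cover
  obtain ⟨V, hV, hVcov⟩ : ∃ V : ℕ → Set X, (∀ n, V n ∈ 𝒰) ∧
      ∀ F : Finset X, ∃ n, (↑F : Set X) ⊆ V n := by
    let A : Set C(X, ℝ) := {f | ∃ U ∈ 𝒰, ∀ x ∉ U, (1 : ℝ) ≤ f x}
    let A' : Set C(X, ℝ) := {g | ∃ b : ℕ → C(X, ℝ), (∀ n, b n ∈ A) ∧
      ∀ (F : Finset X) (ε : ℝ), 0 < ε → ∃ n, ∀ x ∈ F, |b n x - g x| < ε}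
    have hcl := hseq A' (by
      intro f g hf hg
      choose b hb hb2 using hf
      refine ⟨fun m => b (Nat.unpair m).1 (Nat.unpair m).2, fun m => hb _ _, ?_⟩
      intro F ε hε
      have h1 : ∀ᶠ n in (p : Filter ℕ), ∀ x ∈ F, |f n x - g x| < ε / 2 := by
        rw [Filter.eventually_all_finset]
        intro x _
        have := (Metric.tendsto_nhds.mp (tendsto_ptw hg x)) (ε / 2) (by linarith)
        simpa [Real.dist_eq] using this
      obtain ⟨n, hn⟩ := h1.exists
      obtain ⟨m, hm⟩ := hb2 n F (ε / 2) (by linarith)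
      refine ⟨Nat.pair n m, fun x hx => ?_⟩
      simp only [Nat.unpair_pair]
      have h2 := hn x hx
      have h3 := hm x hx
      calc |b n m x - g x| = |(b n m x - f n x) + (f n x - g x)| := by ring_nf
        _ ≤ |b n m x - f n x| + |f n x - g x| := abs_add_le _ _
        _ < ε := by linarith)
    have h0 : (0 : C(X, ℝ)) ∈ A' := by
      refine closed_mem hcl 0 ?_
      intro F ε hε
      obtain ⟨U, hU, hFU⟩ := hcov F
      obtain ⟨f, hf0, hf1⟩ := sep_fin U (hop U hU) F hFU
      refine ⟨f, ⟨fun _ => f, fun _ => ⟨U, hU, fun x hx => (hf1 x hx).ge⟩, ?_⟩, ?_⟩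
      · intro F' ε' hε'
        exact ⟨0, fun x _ => by simpa using hε'⟩
      · intro x hx
        simp [hf0 x hx, hε]
    obtain ⟨b, hb, hb2⟩ := h0
    choose V hV hV2 using hb
    refine ⟨V, hV, fun F => ?_⟩
    obtain ⟨n, hn⟩ := hb2 F 1 one_pos
    refine ⟨n, fun x hx => ?_⟩
    by_contra hxV
    have h1 := hV2 n x hxV
    have h2 := hn x hx
    simp only [ContinuousMap.zero_apply, sub_zero] at h2
    have := (abs_lt.mp h2).2
    linarith
  by_contra hcon
  push Not at hcon
  let A : Set C(X, ℝ) := {f | ∃ k : ℕ, ∀ x ∉ V k, (k : ℝ) + 1 ≤ f x}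
  have hcl := hseq A (by
    intro f g hf hg
    choose k hk using hf
    by_cases hc : ∃ m, ∀ᶠ n in (p : Filter ℕ), k n = m
    · obtain ⟨m, hm⟩ := hc
      refine ⟨m, fun x hx => ?_⟩
      refine ge_of_tendsto (tendsto_ptw hg x) ?_
      filter_upwards [hm] with n hn
      subst hn
      exact hk n x hx
    · exfalso
      have h1 : ∀ m, ∀ᶠ n in (p : Filter ℕ), k n ≠ m := by
        intro m
        exact Ultrafilter.eventually_not.mpr (fun h => hc ⟨m, h⟩)
      have h2 : ∀ m : ℕ, ∀ᶠ n in (p : Filter ℕ), m ≤ k n := by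
        intro m
        induction m with
        | zero => exact Filter.Eventually.of_forall (fun n => Nat.zero_le _)
        | succ m ih =>
          filter_upwards [ih, h1 m] with n hn hn2
          omega
      obtain ⟨x, hx⟩ := hcon (fun n => V (k n)) (fun n => hV _)
      suffices h6 : ∀ᶠ n in (p : Filter ℕ), x ∈ V (k n) by
        obtain ⟨n, hn1, hn2⟩ := (h6.and hx).exists
        exact hn2 hn1
      obtain ⟨M, hM⟩ := exists_nat_gt (g x)
      have h3 : ∀ᶠ n in (p : Filter ℕ), f n x < M :=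
        (tendsto_ptw hg x).eventually (gt_mem_nhds hM)
      filter_upwards [h3, h2 M] with n hn hn2
      by_contra hxn
      have h4 := hk n x hxn
      have h5 : (M : ℝ) ≤ k n := by exact_mod_cast hn2
      linarith)
  have h0 : (0 : C(X, ℝ)) ∈ A := by
    refine closed_mem hcl 0 ?_
    intro F ε hε
    obtain ⟨n, hn⟩ := hVcov F
    obtain ⟨f, hf0, hf1⟩ := sep_fin (V n) (hop _ (hV n)) F hn
    refine ⟨((n : ℝ) + 1) • f, ⟨n, fun x hx => ?_⟩, ?_⟩
    · simp [hf1 x hx]
    · intro x hx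
      simp [hf0 x hx, hε]
  obtain ⟨k, hk⟩ := h0
  apply huniv
  have : V k = Set.univ := by
    rw [Set.eq_univ_iff_forall]
    intro x
    by_contra hx
    have h1 := hk x hx
    simp only [ContinuousMap.zero_apply] at h1
    have : (0 : ℝ) ≤ k := Nat.cast_nonneg k
    linarith
  rw [← this]
  exact hV k

end Pool.Agent.H8.Ps
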